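import Pool.Agent.FKT.MainB

/-!
# Boxes are connected to infinity with polynomially high probability

For the wired random-cluster measure on the cubic lattice, all real `q ≥ 1` and all
`p_c(q) < p < 1`: the probability that no vertex of the box of radius `r` belongs to an infinite
open cluster is at most `C / r ^ c`.
-/

set_option autoImplicit false

namespace Pool.Agent.Results.MP_552f07_pr.BoxToInfinity

open Pool.Agent.FKT

/-- Above the critical point the box `Λ_r` meets an infinite cluster with probability at least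
`1 - C / r ^ c`; the wired measure exists. -/
theorem result : ∀ d : ℕ, 0 < d → ∀ q p : ℝ, 1 ≤ q → pcr d q < p → p < 1 →
    (∃ μ : MeasureTheory.Measure (Ed d → Bool), IsWired d p q μ) ∧
    ∃ c C : ℝ, 0 < c ∧ ∀ μ : MeasureTheory.Measure (Ed d → Bool), IsWired d p q μ →
      ∀ r : ℕ, 1 ≤ r →
        μ.real {ω | ∀ x ∈ bx (0 : Vx d) r, ¬ InfC x ω} ≤ C / (r : ℝ) ^ c := by
  intro d hd q p hq hp hp1
  have hpc : 0 ≤ pcr d q := Real.sSup_nonneg fun x hx => hx.1
  exact ⟨f_EXI d hd p q (lt_of_le_of_lt hpc hp) hp1 hq, f_BOX d hd q p hq hp hp1⟩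

end Pool.Agent.Results.MP_552f07_pr.BoxToInfinity
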