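import Pool.Agent.FKS.Assembly

/-!
# Tails of the finite clusters of the supercritical random-cluster model

Bond random-cluster model on the cubic lattice of dimension `d ≥ 2` with cluster weight a real
number `q ≥ 1`. For every `p` with `p_c(q) < p ≤ 1` the wired measure of the lattice exists, it is
unique, and there are `σ, γ > 0` such that for all `n ≥ 1` the probability that the cluster of the
origin is finite and reaches distance `n` is at most `exp (-(n σ))`, and the probability that it is
finite and has at least `n` vertices is at most `exp (-(γ n ^ ((d - 1) / d)))`. This answers the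
question Q1 of the problem in full (positively).

Definitions (files `Pool/Agent/FKT/Defs.lean` and `Pool/Agent/FKP/Defs.lean`): `Vx d` (vertices),
`Ed d` (edges: `(x, i)` joins `x` to `x + e_i`), `IsWired d p q μ` (`μ` is the weak limit of the
wired random-cluster measures of the boxes), `C0 ω` (the cluster of the origin), `pc d q` (the
critical point: supremum of the `p` in `[0, 1]` with `μ (C0 infinite) = 0`).
-/

set_option autoImplicit false

namespace Pool.Agent.Results.MP_552f07_pr.FullTails

open MeasureTheory Pool.Agent.FKT Pool.Agent.FKP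

theorem result : ∀ (d : ℕ) (q p : ℝ), 2 ≤ d → 1 ≤ q → pc d q < p → p ≤ 1 →
    ∃ μ : Measure (Ed d → Bool), IsWired d p q μ ∧
      (∀ ν : Measure (Ed d → Bool), IsWired d p q ν → ν = μ) ∧
      ∃ σ γ : ℝ, 0 < σ ∧ 0 < γ ∧ ∀ n : ℕ, 1 ≤ n →
        μ.real {ω | (C0 ω).Finite ∧ ∃ v ∈ C0 ω, ∃ i, (n : ℤ) ≤ |v i|} ≤
          Real.exp (-(n * σ)) ∧
        μ.real {ω | (C0 ω).Finite ∧ n ≤ (C0 ω).ncard} ≤
          Real.exp (-(γ * (n : ℝ) ^ (((d : ℝ) - 1) / d))) :=
  fun d q p hd hq hp hp1 => Pool.Agent.FKS.main_tails d q p hd hq hp hp1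

end Pool.Agent.Results.MP_552f07_pr.FullTails
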