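import Pool.Agent.FKS.Assembly

/-!
# The slab critical point of the random-cluster model

Bond random-cluster model on the cubic lattice of dimension `d ≥ 3` with cluster weight a real
number `q ≥ 1`: the critical point of the slabs of thickness `L` tends to the critical point of
the lattice as `L → ∞`.

Definitions: `pc d q` (file `Pool/Agent/FKP/Defs.lean`) is the critical point, the supremum of the
`p` in `[0, 1]` such that the cluster of the origin is almost surely finite for the wired measure;
`pch d q L` (file `Pool/Agent/FKP/PartE.lean`) is the infimum of the `p` in `[0, 1]` such that for
some `α > 0`, for all `n` and all `x` in the slab `[0, L - 1] × [-n, n]^(d - 1)`, the free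
random-cluster measure of this slab gives probability greater than `α` to the event that `0` and
`x` are connected.
-/

set_option autoImplicit false

namespace Pool.Agent.Results.MP_552f07_pr.SlabThreshold

open Pool.Agent.FKT Pool.Agent.FKP

theorem result : ∀ (d : ℕ) (q : ℝ), 3 ≤ d → 1 ≤ q →
    Filter.Tendsto (fun L : ℕ => pch d q L) Filter.atTop (nhds (pc d q)) :=
  fun d q hd hq => Pool.Agent.FKS.main_slab d q hd hq

end Pool.Agent.Results.MP_552f07_pr.SlabThreshold
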